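import Pool.Agent.Lib.P300f36.Pump
import Pool.Agent.Lib.P300f36.Anbn
import Pool.Agent.Lib.P300f36.Upper

/-!
# Tight pushdown space bounds for nonregular languages, strong and middle mode

Strong mode: `n` for all four classes.  Middle mode: `n` for the nondeterministic classes and
`log log n` for the alternating classes.
-/

namespace Pool.Agent.Results.MP_300f36_lc.TightBounds

open Pool.Agent.Lib.P300f36 Asymptotics Filter

/-- The machine for `a^n b^n` gives the linear upper bound in strong space. -/
theorem upper_strong {K : MachineClass}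
    (hK : K Bool abMachine) : ∃ (A : Type) (_ : Finite A) (M : Machine A) (s : ℕ → ℝ),
      K A M ∧ Strong A M s ∧ (s =O[atTop] fun n : ℕ => (n : ℝ)) ∧ ¬ M.language.IsRegular :=
  ⟨Bool, inferInstance, abMachine, fun n => (n : ℝ), hK, ab_strong, isBigO_refl _ _,
    ab_nonregular⟩

/-- The machine for `a^n b^n` gives the linear upper bound in middle space. -/
theorem upper_middle {K : MachineClass}
    (hK : K Bool abMachine) : ∃ (A : Type) (_ : Finite A) (M : Machine A) (s : ℕ → ℝ),
      K A M ∧ Middle A M s ∧ (s =O[atTop] fun n : ℕ => (n : ℝ)) ∧ ¬ M.language.IsRegular :=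
  ⟨Bool, inferInstance, abMachine, fun n => (n : ℝ), hK, fun w _ => ab_strong w,
    isBigO_refl _ _, ab_nonregular⟩

/-- The machine for block-coded Zimin words gives the doubly logarithmic upper bound. -/
theorem upper_loglog {K : MachineClass}
    (hK : K Letter zMachine) : ∃ (A : Type) (_ : Finite A) (M : Machine A) (s : ℕ → ℝ),
      K A M ∧ Middle A M s ∧ (s =O[atTop] fun n : ℕ => Real.log (Real.log (n : ℝ))) ∧
        ¬ M.language.IsRegular :=
  ⟨Letter, inferInstance, zMachine, zBound, hK, z_middle, z_isBigO, z_nonregular⟩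

/-- **The tight bounds for the recognition of nonregular languages by one-way and realtime,
nondeterministic and alternating pushdown automata, in strong and in middle pushdown space.** -/
theorem result :
    (TightBound OnewayNPDA Strong (fun n => (n : ℝ)) ∧
      TightBound RealtimeNPDA Strong (fun n => (n : ℝ)) ∧
      TightBound OnewayAPDA Strong (fun n => (n : ℝ)) ∧
      TightBound RealtimeAPDA Strong (fun n => (n : ℝ))) ∧
    (TightBound OnewayNPDA Middle (fun n => (n : ℝ)) ∧
      TightBound RealtimeNPDA Middle (fun n => (n : ℝ)) ∧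
      TightBound OnewayAPDA Middle (fun n => Real.log (Real.log (n : ℝ))) ∧
      TightBound RealtimeAPDA Middle (fun n => Real.log (Real.log (n : ℝ)))) := by
  refine ⟨⟨⟨upper_strong ab_nondet, ?_⟩, ⟨upper_strong ⟨ab_nondet, ab_realtime⟩, ?_⟩,
    ⟨upper_strong trivial, ?_⟩, ⟨upper_strong ab_realtime, ?_⟩⟩,
    ⟨upper_middle ab_nondet, ?_⟩, ⟨upper_middle ⟨ab_nondet, ab_realtime⟩, ?_⟩,
    ⟨upper_loglog trivial, ?_⟩, ⟨upper_loglog z_realtime, ?_⟩⟩
  · exact fun A _ M s _ hb hs => Machine.regular_of_strong hb hs
  · exact fun A _ M s _ hb hs => Machine.regular_of_strong hb hs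
  · exact fun A _ M s _ hb hs => Machine.regular_of_strong hb hs
  · exact fun A _ M s _ hb hs => Machine.regular_of_strong hb hs
  · exact fun A _ M s hM hb hs => Machine.regular_of_middle_nondet hM hb hs
  · exact fun A _ M s hM hb hs => Machine.regular_of_middle_nondet hM.1 hb hs
  · exact fun A _ M s _ hb hs => Machine.regular_of_loglog hb hs
  · exact fun A _ M s _ hb hs => Machine.regular_of_loglog hb hs

end Pool.Agent.Results.MP_300f36_lc.TightBounds
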